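import Mathlib
import Pool.Agent.MP_64e20d_co.Main

set_option autoImplicit false

namespace Pool.Agent.Results.MP_64e20d_co.NotNeST

open Pool.Agent.MP_64e20d_co

/-- Sanity check of the definitions: the four-cycle is a NeST graph in both readings. -/
theorem sanity : IsNeST (SimpleGraph.cycleGraph 4) ∧ IsNeSTDiam (SimpleGraph.cycleGraph 4) :=
  ⟨c4_isNeST, c4_isNeSTDiam⟩

/-- There is a finite strongly chordal graph that is not a NeST graph, whichever of the two
readings of the size of an intersection of neighborhood subtrees is used. -/
theorem result :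
    ∃ (V : Type) (_ : Finite V) (H : SimpleGraph V),
      IsStronglyChordal H ∧ ¬ IsNeST H ∧ ¬ IsNeSTDiam H :=
  ⟨B × Bool, inferInstance, G, G_stronglyChordal, not_isNeST, not_isNeSTDiam⟩

end Pool.Agent.Results.MP_64e20d_co.NotNeST
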