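import Mathlib
import Pool.Agent.MP_64e20d_co.h17.Outer

set_option autoImplicit false

namespace Pool.Agent.Results.MP_64e20d_co.OuterplanarNotNeST

open Pool.Agent.MP_64e20d_co

/-- There is a chordal outerplanar graph on eighteen vertices, without four mutually adjacent
vertices, that is not a NeST graph, whichever of the two readings of the size of an intersection
of neighborhood subtrees is used. -/
theorem result :
    ∃ H : SimpleGraph (Fin 18),
      IsChordal H ∧ H.CliqueFree 4 ∧ NoCrossingChords H ∧ ¬ IsNeST H ∧ ¬ IsNeSTDiam H :=
  ⟨Outer.H, Outer.H_chordal, Outer.H_cliqueFree, Outer.H_outer, Outer.H_not_isNeST,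
    Outer.H_not_isNeSTDiam⟩

end Pool.Agent.Results.MP_64e20d_co.OuterplanarNotNeST
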